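import Pool.Agent.MP_db5b97_nt.H85.Spec2

/-! Norms of elements and of divisors. -/

namespace Pool.Agent.MP_db5b97_nt.H10

open NumberField IsDedekindDomain WithZero H85

variable {k F : Type} [Field k] [NumberField k] [Field F] [NumberField F] [Algebra k F] {l : ℕ}

omit [NumberField k] [NumberField F] in
theorem nrD_single (w : Pr F l) (n : ℤ) :
    nrD F l k (Finsupp.single w n) =
      Finsupp.single (w.und k) (n * w.1.asIdeal.inertiaDeg (𝓞 k)) := by
  simp [nrD]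

theorem relNorm_prime (w : Sp F) :
    Ideal.relNorm (𝓞 k) w.asIdeal = (und k w).asIdeal ^ w.asIdeal.inertiaDeg (𝓞 k) := by
  have := w.isMaximal
  have := (und k w).isMaximal
  have : w.asIdeal.LiesOver (und k w).asIdeal := ⟨rfl⟩
  exact Ideal.relNorm_eq_pow_of_isMaximal _ _

theorem dI_relNorm (I : Ideal (𝓞 F)) (hI : I ≠ ⊥) :
    dI l (Ideal.relNorm (𝓞 k) I) = nrD F l k (dI l I) := by
  induction I using UniqueFactorizationMonoid.induction_on_prime with
  | h₁ => exact absurd rfl hI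
  | h₂ x hx =>
    rw [Ideal.isUnit_iff.1 hx, Ideal.relNorm_top, dI_top, dI_top, map_zero]
  | h₃ a p ha hp ih =>
    let w : Sp F := ⟨p, Ideal.isPrime_of_prime hp, hp.ne_zero⟩
    have e : dI l (Ideal.relNorm (𝓞 k) w.asIdeal) = nrD F l k (dI l w.asIdeal) := by
      rw [relNorm_prime, dI_pow (und k w).ne_bot]
      by_cases h : (l : 𝓞 F) ∈ w.asIdeal
      · rw [dI_pl ⟨w, h⟩, map_zero]
        exact smul_eq_zero_of_right _ (dI_pl (Pl.und k ⟨w, h⟩))
      · let w' : Pr F l := ⟨w, h⟩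
        rw [dI_pr w', nrD_single]
        refine (congrArg _ (dI_pr (Pr.und k w'))).trans ?_
        simp [w']
    rw [map_mul, dI_mul (by simpa using hp.ne_zero) (by simpa using ha), dI_mul hp.ne_zero ha,
      map_add, ih ha]
    exact congrArg (· + _) e

theorem nrm_mkI (a : 𝓞 F) (ha : a ≠ 0) :
    Un.nrm k F (mkI a ha) = mkI (Algebra.intNorm (𝓞 k) (𝓞 F) a) (by simpa using ha) :=
  Un.ext (Algebra.algebraMap_intNorm (A := 𝓞 k) (K := k) (L := F) a).symm

theorem dv_nrm (x : Un F) : dv k l (Un.nrm k F x) = nrD F l k (dv F l x) := by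
  have h : ∀ (a : 𝓞 F) (ha : a ≠ 0),
      dv k l (Un.nrm k F (mkI a ha)) = nrD F l k (dv F l (mkI a ha)) := fun a ha => by
    rw [nrm_mkI, dv_mkI, dv_mkI, ← Ideal.relNorm_singleton, dI_relNorm _ (by simpa using ha)]
  obtain ⟨a, ha, b, hb, rfl⟩ := exists_mkI x
  simp only [map_sub, h]

theorem Rl_map {A B : Type} [Field A] [Field B] (f : A →+* B) {x : A} :
    f x ∈ Rl B l ↔ x ∈ Rl A l := by
  refine exists_congr fun s => and_congr_right fun _ => ?_
  rw [← map_natCast f, ← map_mul]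
  exact isIntegral_algHom_iff f.toIntAlgHom f.injective

theorem norm_one_add (c : ℕ) (hc : c ≠ 0) {y : F} (hy : y ∈ Rl F l) :
    ∃ z ∈ Rl k l, Algebra.norm k (1 + c * y) = 1 + c * z := by
  have hc' : (c : k) ≠ 0 := by exact_mod_cast hc
  have h : ∃ Y ∈ Rl (AlgebraicClosure k) l,
      ∏ σ : F →ₐ[k] AlgebraicClosure k, σ (1 + c * y) = 1 + c * Y := by
    refine Finset.prod_induction _ (fun t => ∃ Y ∈ Rl (AlgebraicClosure k) l, t = 1 + c * Y) ?_
      ⟨0, zero_mem _, by simp⟩ fun σ _ => ⟨σ y, (Rl_map σ.toRingHom).2 hy, by simp⟩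
    rintro _ _ ⟨Y, hY, rfl⟩ ⟨Z, hZ, rfl⟩
    exact ⟨Y + Z + c * (Y * Z), add_mem (add_mem hY hZ) (mul_mem (natCast_mem _ c) (mul_mem hY hZ)),
      by ring⟩
  obtain ⟨Y, hY, e⟩ := h
  rw [← Algebra.norm_eq_prod_embeddings] at e
  refine ⟨(Algebra.norm k (1 + c * y) - 1) / c, (Rl_map (algebraMap k (AlgebraicClosure k))).1 ?_,
    by field_simp; ring⟩
  have hc'' : (c : AlgebraicClosure k) ≠ 0 := by exact_mod_cast hc
  rw [map_div₀, map_sub, e, map_one, map_natCast, add_sub_cancel_left, mul_div_cancel_left₀ _ hc'']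
  exact hY

theorem norm_Rl {y : F} (hy : y ∈ Rl F l) : Algebra.norm k y ∈ Rl k l := by
  obtain ⟨z, hz, e⟩ := norm_one_add (k := k) 1 one_ne_zero (sub_mem hy (one_mem _))
  simp only [Nat.cast_one, one_mul, add_sub_cancel] at e
  rw [e]
  exact add_mem (one_mem _) hz

theorem nrm_Ru (hl : l ≠ 0) {x : Un F} (hx : x ∈ Ru F l) : Un.nrm k F x ∈ Ru k l := by
  rw [mem_Ru_iff hl] at hx ⊢
  refine ⟨norm_Rl hx.1, ?_⟩
  rw [← Un.val_neg, ← map_neg]
  rw [← Un.val_neg] at hx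
  exact norm_Rl hx.2

theorem nrm_Ray (M : ℕ) (hl : l ≠ 0) {x : Un F} (hx : x ∈ Ray F l M) :
    Un.nrm k F x ∈ Ray k l M := by
  rcases Nat.eq_zero_or_pos M with rfl | hM
  · have h := nrm_Ru (k := k) hl hx.1
    refine ⟨h, fun w hw => ?_⟩
    rw [pow_zero]
    exact Valuation.map_sub_le _ (h w hw).le (by simp)
  · rw [mem_Ray_iff hl hM] at hx ⊢
    obtain ⟨y, hy, e⟩ := hx
    simpa [e] using norm_one_add (k := k) (l ^ M) (pow_ne_zero _ hl) hy

theorem exists_unif (hl : l ≠ 0) (w : Pl F l) : ∃ x : Un F, dvl F l x = Finsupp.single w 1 := by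
  classical
  have := Pl_finite (F := F) hl
  have := Fintype.ofFinite (Pl F l)
  obtain ⟨π, hπ⟩ := w.1.intValuation_exists_uniformizer
  obtain ⟨y, hy⟩ := exists_forall_sub_mem_ideal (s := Finset.univ)
    (fun v : Pl F l => v.1.asIdeal) (fun _ => 2) (fun v _ => v.1.prime)
    (fun v _ v' _ h e => h (Subtype.ext (HeightOneSpectrum.ext e)))
    (fun v => if v.1 = w then π else 1)
  have h : ∀ v : Pl F l, v.1.intValuation y = if v = w then exp (-1) else 1 := fun v => by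
    have h1 := (v.1.intValuation_le_pow_iff_mem _ _).2 (hy v (Finset.mem_univ v))
    split_ifs at h1 ⊢ with hv
    · subst hv
      rw [← hπ]
      refine Valuation.map_eq_of_sub_lt _ (h1.trans_lt ?_)
      rw [hπ, exp_lt_exp]
      norm_num
    · rw [← map_one v.1.intValuation]
      refine Valuation.map_eq_of_sub_lt _ (h1.trans_lt ?_)
      rw [map_one, ← exp_zero, exp_lt_exp]
      norm_num
  have hy0 : y ≠ 0 := fun h0 => by
    have := h w
    rw [h0, map_zero, if_pos rfl] at this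
    exact exp_ne_zero this.symm
  refine ⟨mkI y hy0, Finsupp.ext fun v => ?_⟩
  rw [dvl_apply, ord_apply, val_mkI, val_coe, h, Finsupp.single_apply]
  by_cases hv : v = w
  · simp [hv]
  · simp [hv, Ne.symm hv]

theorem surj_of_single {A X : Type} [AddCommGroup A] (f : A →+ (X →₀ ℤ))
    (h : ∀ w, ∃ x, f x = Finsupp.single w 1) : Function.Surjective f := fun D => by
  induction D using Finsupp.induction_linear with
  | zero => exact ⟨0, map_zero _⟩
  | add D E hD hE =>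
    obtain ⟨x, rfl⟩ := hD
    obtain ⟨y, rfl⟩ := hE
    exact ⟨x + y, map_add _ _ _⟩
  | single v n =>
    obtain ⟨x, e⟩ := h v
    exact ⟨n • x, by simp [e]⟩

omit [NumberField F] in
theorem und_surj (v : Sp k) : ∃ w : Sp F, und k w = v := by
  have := v.isMaximal
  obtain ⟨Q, hQ, hQ'⟩ := Ideal.exists_maximal_ideal_liesOver_of_isIntegral (S := 𝓞 F) v.asIdeal
  exact ⟨⟨Q, hQ.isPrime, Ideal.ne_bot_of_liesOver_of_ne_bot v.ne_bot Q⟩,
    HeightOneSpectrum.ext hQ'.over.symm⟩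

omit [NumberField k] [NumberField F] in
theorem mem_und (w : Sp F) : (l : 𝓞 k) ∈ (und k w).asIdeal ↔ (l : 𝓞 F) ∈ w.asIdeal := by
  simp [und, Ideal.mem_comap]

omit [NumberField F] in
theorem und_surj_pl : Function.Surjective (fun w : Pl F l => w.und k) := fun v => by
  obtain ⟨w, e⟩ := und_surj (F := F) v.1
  exact ⟨⟨w, (mem_und w).1 (e ▸ v.2)⟩, Subtype.ext e⟩

omit [NumberField F] in
theorem und_surj_pr : Function.Surjective (fun w : Pr F l => w.und k) := fun v => by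
  obtain ⟨w, e⟩ := und_surj (F := F) v.1
  exact ⟨⟨w, fun h => v.2 (e ▸ (mem_und w).2 h)⟩, Subtype.ext e⟩

/-- every prime is prime to `1` -/
def pr1 (w : Sp F) : Pr F 1 := ⟨w, fun h => w.isPrime.one_notMem (by simpa using h)⟩

theorem dvl_nrm (w : Pl F l) (hw : w.1.asIdeal.inertiaDeg (𝓞 k) = 1) {x : Un F}
    (hx : dvl F l x = Finsupp.single w 1) :
    dvl k l (Un.nrm k F x) = Finsupp.single (w.und k) 1 := by
  classical
  ext v
  have h0 : ∀ u : Pl F l, ord u.1 x = Finsupp.single w (1 : ℤ) u := fun u => by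
    rw [← hx, dvl_apply]
  have e : dvl k l (Un.nrm k F x) v = nrD F 1 k (dv F 1 x) (pr1 v.1) := by
    rw [← dv_nrm]
    rfl
  rw [e, ← Finsupp.sum_single (dv F 1 x), map_finsuppSum, Finsupp.sum_apply,
    Finsupp.sum_eq_single (pr1 w.1) _ (by simp)]
  · rw [nrD_single, dv_apply]
    show Finsupp.single _ (ord w.1 x * (w.1.asIdeal.inertiaDeg (𝓞 k) : ℤ)) _ = _
    rw [hw, h0, Finsupp.single_eq_same, Finsupp.single_apply, Finsupp.single_apply]
    refine if_congr ⟨fun h => Subtype.ext (congrArg (fun t : Pr k 1 => t.1) h),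
      fun h => Subtype.ext (congrArg (fun t : Pl k l => t.1) h)⟩ (by simp) rfl
  · intro u hu hne
    rw [nrD_single, Finsupp.single_apply, if_neg]
    intro h
    have h1 : und k u.1 = v.1 := congrArg (fun t : Pr k 1 => t.1) h
    have h2 : (l : 𝓞 F) ∈ u.1.asIdeal := (mem_und u.1).1 (h1 ▸ v.2)
    refine hu ((h0 ⟨u.1, h2⟩).trans (Finsupp.single_eq_of_ne fun h3 => hne ?_))
    exact Subtype.ext (congrArg (fun t : Pl F l => t.1) h3)

theorem nrm_surj (hl : l ≠ 0) (h : ∀ w : Pl F l, w.1.asIdeal.inertiaDeg (𝓞 k) = 1) (x : Un k) :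
    ∃ y : Un F, x - Un.nrm k F y ∈ Ru k l := by
  obtain ⟨y, e⟩ := surj_of_single ((dvl k l).comp (Un.nrm k F)) (fun v => by
    obtain ⟨w, rfl⟩ := und_surj_pl (F := F) v
    obtain ⟨y, hy⟩ := exists_unif hl w
    exact ⟨y, dvl_nrm w (h w) hy⟩) (dvl k l x)
  refine ⟨y, mem_Ru_iff_ord.2 fun v => ?_⟩
  rw [← dvl_apply, map_sub, ← e]
  simp

theorem rowNT1 : RowNT1 where
  dv_nrm _ _ _ _ _ _ _ _ x := dv_nrm x
  nrm_Ru _ _ _ _ _ _ _ _ hl _ hx := nrm_Ru hl hx
  nrm_Ray _ _ _ _ _ _ _ _ M hl _ hx := nrm_Ray M hl hx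
  dvl_surj _ _ _ _ hl := surj_of_single _ (exists_unif hl)
  und_surj _ _ _ _ _ _ _ _ := ⟨und_surj_pl, und_surj_pr⟩
  nrm_surj _ _ _ _ _ _ _ _ hl h := nrm_surj hl h

end Pool.Agent.MP_db5b97_nt.H10
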